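import Pool.Agent.H54.KVA.Defs2
import Pool.Agent.H56.KAF.Defs

/-!
# Rows of a position which are not full: abstract data

One context. `Om` is the finite space of the samples (a line and a time on it), `L` the line, `T`
the exact time, `V` the digits of the line, `N` the position of the sample in units `2 ^ (-X)`.
The form `Z t₁ t₀` is the difference of the positions at two times as a function of the line.
-/

set_option autoImplicit false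

namespace Pool.L1

open Finset Real
open Pool.Agent.H49.Ent Pool.Agent.H32.Dense Pool.STK Pool.KAF

/-- The data for the rows. -/
structure RD where
  Om : Type
  Lam : Type
  Tau : Type
  Nu : Type
  [fin : Fintype Om]
  P : Om → ℝ
  L : Om → Lam
  T : Om → Tau
  V : Lam → Nu
  N : Om → ℤ
  Z : Tau → Tau → Lam → ℝ
  X : ℕ

attribute [instance] RD.fin

namespace RD

variable (d : RD)

/-- The row `r` of the position. -/
def row (r : ℕ) (ω : d.Om) : ℤ := d.N ω / 2 ^ (d.X - r)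

/-- The basic assumptions. -/
structure OK (A : ℕ) : Prop where
  law : IsLaw d.P
  hN : Det d.P (fun ω => (d.L ω, d.T ω)) d.N
  hV : ∀ ω ω' t₁ t₀, 0 < d.P ω → 0 < d.P ω' → d.V (d.L ω) = d.V (d.L ω') →
    d.Z t₁ t₀ (d.L ω) = d.Z t₁ t₀ (d.L ω')
  hZ : ∀ ω ω', 0 < d.P ω → 0 < d.P ω' → d.L ω = d.L ω' →
    |((d.N ω' : ℝ) - d.N ω) - 2 ^ d.X * d.Z (d.T ω) (d.T ω') (d.L ω)| ≤ 2 ^ A

/-- (H2) the position is nearly independent of the line. -/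
def H2 (ι : ℝ) : Prop := Pool.KVA.MI d.P d.N (fun ω => d.V (d.L ω)) d.T ≤ ι * d.X

/-- (H5) the blocks of rows outside `Bd` are not full on any large event. -/
def H5 (c κ π₀ : ℝ) (Bd : Set ℕ) : Prop :=
  ∀ j : ℕ, j ∉ Bd → (j + 1) * ⌊κ * d.X⌋₊ ≤ d.X → ∀ E : Set d.Om, π₀ ≤ Pr d.P E →
    CH (cond d.P (fun ω => ω ∈ E) True) (d.row ((j + 1) * ⌊κ * d.X⌋₊))
      (fun ω => (d.row (j * ⌊κ * d.X⌋₊) ω, d.T ω)) ≤ (1 - c) * ⌊κ * d.X⌋₊ * Real.log 2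

end RD

/-- (J1) For most samples all blocks of rows outside `Bd` contain many heavy rows. -/
def J1 (d : RD) (J : d.Om → Set ℕ) (h : ℕ) (u π₁ : ℝ) (Bd : Set ℕ) : Prop :=
  Pr d.P {ω | ∃ j : ℕ, j ∉ Bd ∧ (j + 2) * h ≤ d.X ∧
    (Set.ncard {r | r ∈ J ω ∧ j * h ≤ r ∧ r < (j + 1) * h} : ℝ) < u * h} ≤ π₁

/-- (J2) The heavy rows of the base sample are not hit by the forms. `Q` is any law of tuples,
`w₁` the base sample, `w₀` the partner, `x` the times, `x₀` the context, `m` a label of the line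
(given the context; nearly a function of the digits of the line), `G` the cells, `dg` their digits, `q` the level, `W` an event. -/
def RowOK (d : RD) (J : d.Om → Set ℕ) (k k₁ Fc : ℕ) (e δ : ℝ) : Prop :=
  ∀ (Ω ξ₀ ξ μ O : Type) (γ : ℕ → Type) [Fintype Ω] (Q : Ω → ℝ) (w₁ w₀ : Ω → d.Om) (x₀ : Ω → ξ₀)
    (x : Ω → ξ) (m : Ω → μ) (G : ∀ s, Ω → γ s) (dg : ℕ → Ω → O) (F : Finset O)
    (q : Ω → ℤ) (W : Set Ω) (a b : ℕ), IsLaw Q →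
    (∀ ω, law Q w₁ ω = d.P ω) → (∀ ω, law Q w₀ ω = d.P ω) →
    (∀ v, 0 < Q v → d.L (w₀ v) = d.L (w₁ v)) →
    Det Q x (fun v => (x₀ v, d.T (w₁ v), d.T (w₀ v))) →
    Pool.KVA.MI Q (fun v => d.L (w₁ v)) x (fun _ => ()) ≤ δ * d.X →
    Det Q (fun v => (x₀ v, d.L (w₁ v))) m →
    CH Q m (fun v => (x₀ v, d.V (d.L (w₁ v)))) ≤ δ * d.X →
    (∀ s, a ≤ s → Det Q (fun v => (x₀ v, m v, d.V (d.L (w₁ v)))) (G s)) →
    (∀ s v, dg s v ∈ F) → F.card ≤ Fc →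
    (∀ s, a ≤ s → Det Q (fun v => (G s v, dg s v)) (G (s + 1))) →
    (∀ s, a ≤ s → Det Q (G (s + 1)) (fun v => (G s v, dg s v))) →
    Det Q (fun v => (x v, m v)) q →
    Det Q (fun v => (x v, m v)) (fun v => v ∈ W) →
    (∀ s v v', a ≤ s → 0 < Q v → 0 < Q v' → v ∈ W → x₀ v = x₀ v' → m v = m v' →
      G s v = G s v' →
      |d.Z (d.T (w₁ v)) (d.T (w₀ v)) (d.L (w₁ v)) -
        d.Z (d.T (w₁ v)) (d.T (w₀ v)) (d.L (w₁ v'))| ≤ (2 : ℝ) ^ ((k : ℤ) - (s + q v))) →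
    b ≤ d.X →
    ∑ s ∈ Finset.Ico a b, Pr (dbl Q (fun v => (x₀ v, m v, G s v))) {z | z.1 ∈ W ∧
      0 ≤ (s : ℤ) + q z.1 ∧ ((s : ℤ) + q z.1).toNat ∈ J (w₁ z.1) ∧
      (2 : ℝ) ^ (-((s : ℤ) + q z.1 + k₁)) ≤
        |d.Z (d.T (w₁ z.1)) (d.T (w₀ z.1)) (d.L (w₁ z.1)) -
          d.Z (d.T (w₁ z.1)) (d.T (w₀ z.1)) (d.L (w₁ z.2))|} ≤ e * d.X

/-- ROW0: the heavy rows exist. -/
def ROW0Stmt : Prop :=
  ∀ (A : ℕ) (c : ℝ), 0 < c → ∃ u : ℝ, 0 < u ∧ u ≤ 1 ∧ ∀ (k k₁ Fc : ℕ) (e : ℝ), 0 < e →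
    ∃ δ : ℝ, 0 < δ ∧ ∀ κ π₁ : ℝ, 0 < κ → κ ≤ 1 → 0 < π₁ → ∃ (π₀ : ℝ) (X₀ : ℕ), 0 < π₀ ∧
      ∀ (d : RD) (Bd : Set ℕ), d.OK A → X₀ ≤ d.X → d.H2 δ → d.H5 c κ π₀ Bd →
        ∃ J : d.Om → Set ℕ, J1 d J ⌊κ * d.X⌋₊ u π₁ Bd ∧ RowOK d J k k₁ Fc e δ

end Pool.L1
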